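import Pool.Agent.H38.ET8.W247.ET.Stm

open Finset MeasureTheory
open Pool.Agent.W247.ET

set_option autoImplicit false

namespace Pool.Agent.W654.ET.RS

/-- the sum of the two kernels -/
noncomputable def Kf (a x b z : ℝ) : ℝ := KK P1 a x b z + KK P2 a x b z

noncomputable def Wf (n m p q : ℝ) : ℝ := 315 / 16 / (n + m) + Dp n m p q / (n + m) ^ 7

lemma mem_quads {B : Finset ℕ} {i i' : ℕ} {q : (ℕ × ℕ) × (ℕ × ℕ)} :
    q ∈ quads B i i' ↔ ((q.1.1 ∈ B ∧ q.1.2 ∈ B) ∧ q.2.1 ∈ B ∧ q.2.2 ∈ B) ∧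
      q.1.1 + q.2.2 + i' = q.1.2 + q.2.1 + i := by
  simp only [quads, mem_filter, mem_product]

lemma sym1 (B : Finset ℕ) (i i' : ℕ) (F : ℕ → ℕ → ℕ → ℕ → ℝ) :
    ∑ q ∈ quads B i i', F q.1.1 q.1.2 q.2.1 q.2.2 =
      ∑ q ∈ quads B i i', F q.2.2 q.1.2 q.2.1 q.1.1 := by
  refine Finset.sum_nbij' (fun q => ((q.2.2, q.1.2), (q.2.1, q.1.1)))
    (fun q => ((q.2.2, q.1.2), (q.2.1, q.1.1))) ?_ ?_ ?_ ?_ ?_
  · intro q hq
    rw [mem_quads] at hq ⊢
    obtain ⟨⟨⟨h1, h2⟩, h3, h4⟩, h5⟩ := hq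
    refine ⟨⟨⟨h4, h2⟩, h3, h1⟩, ?_⟩
    simp only
    omega
  · intro q hq
    rw [mem_quads] at hq ⊢
    obtain ⟨⟨⟨h1, h2⟩, h3, h4⟩, h5⟩ := hq
    refine ⟨⟨⟨h4, h2⟩, h3, h1⟩, ?_⟩
    simp only
    omega
  · intro q _
    rfl
  · intro q _
    rfl
  · intro q _
    rfl

lemma sym2 (B : Finset ℕ) (i i' : ℕ) (F : ℕ → ℕ → ℕ → ℕ → ℝ) :
    ∑ q ∈ quads B i i', F q.1.1 q.1.2 q.2.1 q.2.2 =
      ∑ q ∈ quads B i i', F q.1.1 q.2.1 q.1.2 q.2.2 := by
  refine Finset.sum_nbij' (fun q => ((q.1.1, q.2.1), (q.1.2, q.2.2)))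
    (fun q => ((q.1.1, q.2.1), (q.1.2, q.2.2))) ?_ ?_ ?_ ?_ ?_
  · intro q hq
    rw [mem_quads] at hq ⊢
    obtain ⟨⟨⟨h1, h2⟩, h3, h4⟩, h5⟩ := hq
    refine ⟨⟨⟨h1, h3⟩, h2, h4⟩, ?_⟩
    simp only
    omega
  · intro q hq
    rw [mem_quads] at hq ⊢
    obtain ⟨⟨⟨h1, h2⟩, h3, h4⟩, h5⟩ := hq
    refine ⟨⟨⟨h1, h3⟩, h2, h4⟩, ?_⟩
    simp only
    omega
  · intro q _
    rfl
  · intro q _
    rfl
  · intro q _
    rfl

/-- symmetrisation -/
lemma QS_eq (hKER : KER_stmt) (B : Finset ℕ) (N i i' : ℕ) (hB : B ⊆ Icc 1 N) :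
    QS P1 B i i' + QS P2 B i i' =
      ∑ q ∈ quads B i i', Wf ((q.1.1 : ℝ) + q.2.2) ((q.1.2 : ℝ) + q.2.1)
        ((q.1.1 : ℝ) * q.2.2) ((q.1.2 : ℝ) * q.2.1) := by
  have h0 : QS P1 B i i' + QS P2 B i i' =
      ∑ q ∈ quads B i i', Kf q.1.1 q.1.2 q.2.1 q.2.2 := by
    unfold QS
    rw [← Finset.sum_add_distrib]
    rfl
  have h1 : ∑ q ∈ quads B i i', Kf q.1.1 q.1.2 q.2.1 q.2.2 =
      ∑ q ∈ quads B i i', Kf q.2.2 q.1.2 q.2.1 q.1.1 :=
    sym1 B i i' (fun a x b z => Kf a x b z)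
  have h2 : ∑ q ∈ quads B i i', Kf q.1.1 q.1.2 q.2.1 q.2.2 =
      ∑ q ∈ quads B i i', Kf q.1.1 q.2.1 q.1.2 q.2.2 :=
    sym2 B i i' (fun a x b z => Kf a x b z)
  have h3 : ∑ q ∈ quads B i i', Kf q.2.2 q.1.2 q.2.1 q.1.1 =
      ∑ q ∈ quads B i i', Kf q.2.2 q.2.1 q.1.2 q.1.1 :=
    sym2 B i i' (fun a x b z => Kf z x b a)
  have h4 : 4 * ∑ q ∈ quads B i i', Kf q.1.1 q.1.2 q.2.1 q.2.2 =
      ∑ q ∈ quads B i i', 4 * Wf ((q.1.1 : ℝ) + q.2.2) ((q.1.2 : ℝ) + q.2.1)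
        ((q.1.1 : ℝ) * q.2.2) ((q.1.2 : ℝ) * q.2.1) := by
    have : 4 * ∑ q ∈ quads B i i', Kf q.1.1 q.1.2 q.2.1 q.2.2 =
        ∑ q ∈ quads B i i', Kf q.1.1 q.1.2 q.2.1 q.2.2 +
        ∑ q ∈ quads B i i', Kf q.2.2 q.1.2 q.2.1 q.1.1 +
        ∑ q ∈ quads B i i', Kf q.1.1 q.2.1 q.1.2 q.2.2 +
        ∑ q ∈ quads B i i', Kf q.2.2 q.2.1 q.1.2 q.1.1 := by
      linarith
    rw [this, ← Finset.sum_add_distrib, ← Finset.sum_add_distrib, ← Finset.sum_add_distrib]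
    refine Finset.sum_congr rfl (fun q hq => ?_)
    rw [mem_quads] at hq
    obtain ⟨⟨⟨q1, q2⟩, q3, q4⟩, q5⟩ := hq
    have p1 : (0 : ℝ) < q.1.1 := by
      have := (mem_Icc.mp (hB q1)).1
      exact_mod_cast this
    have p2 : (0 : ℝ) < q.1.2 := by
      have := (mem_Icc.mp (hB q2)).1
      exact_mod_cast this
    have p3 : (0 : ℝ) < q.2.1 := by
      have := (mem_Icc.mp (hB q3)).1
      exact_mod_cast this
    have p4 : (0 : ℝ) < q.2.2 := by
      have := (mem_Icc.mp (hB q4)).1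
      exact_mod_cast this
    have hk := hKER q.1.1 q.1.2 q.2.1 q.2.2 p1 p2 p3 p4
    unfold Kf Wf
    linarith [hk]
  rw [← Finset.mul_sum] at h4
  rw [h0]
  linarith

lemma sum_pairs (B : Finset ℕ) (N : ℕ) (hB : B ⊆ Icc 1 N) (h : ℕ → ℝ) :
    ∑ p ∈ B ×ˢ B, h (p.1 + p.2) = ∑ n ∈ Icc 1 (2 * N), (rep B n : ℝ) * h n := by
  rw [← Finset.sum_fiberwise_of_maps_to (s := B ×ˢ B) (t := Icc 1 (2 * N))
    (g := fun p : ℕ × ℕ => p.1 + p.2)]
  · refine Finset.sum_congr rfl (fun n _ => ?_)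
    rw [Finset.sum_congr rfl (g := fun _ => h n)]
    · rw [Finset.sum_const, nsmul_eq_mul]
      rfl
    · intro p hp
      rw [(mem_filter.mp hp).2]
  · intro p hp
    rw [mem_product] at hp
    have h1 := mem_Icc.mp (hB hp.1)
    have h2 := mem_Icc.mp (hB hp.2)
    rw [mem_Icc]
    omega

lemma sum_quads (B : Finset ℕ) (N i i' : ℕ) (hB : B ⊆ Icc 1 N) (f : ℕ → ℕ → ℝ) :
    ∑ q ∈ quads B i i', f (q.1.1 + q.2.2) (q.1.2 + q.2.1) =
      ∑ n ∈ Icc 1 (2 * N), (rep B n : ℝ) * ∑ m ∈ Icc 1 (2 * N), (rep B m : ℝ) *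
        (if n + i' = m + i then f n m else 0) := by
  unfold quads
  rw [Finset.sum_filter]
  have e1 : ∑ q ∈ (B ×ˢ B) ×ˢ (B ×ˢ B), (if q.1.1 + q.2.2 + i' = q.1.2 + q.2.1 + i then
      f (q.1.1 + q.2.2) (q.1.2 + q.2.1) else 0) =
      ∑ q ∈ (B ×ˢ B) ×ˢ (B ×ˢ B), (if (q.1.1 + q.1.2) + i' = (q.2.1 + q.2.2) + i then
      f (q.1.1 + q.1.2) (q.2.1 + q.2.2) else 0) := by
    refine Finset.sum_nbij' (fun q => ((q.1.1, q.2.2), (q.1.2, q.2.1)))
      (fun q => ((q.1.1, q.2.1), (q.2.2, q.1.2))) ?_ ?_ ?_ ?_ ?_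
    · intro q hq
      simp only [mem_product] at hq ⊢
      exact ⟨⟨hq.1.1, hq.2.2⟩, hq.1.2, hq.2.1⟩
    · intro q hq
      simp only [mem_product] at hq ⊢
      exact ⟨⟨hq.1.1, hq.2.1⟩, hq.2.2, hq.1.2⟩
    · intro q _
      rfl
    · intro q _
      rfl
    · intro q _
      rfl
  rw [e1, Finset.sum_product]
  rw [← sum_pairs B N hB (fun n => ∑ m ∈ Icc 1 (2 * N), (rep B m : ℝ) *
        (if n + i' = m + i then f n m else 0))]
  refine Finset.sum_congr rfl (fun u _ => ?_)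
  exact sum_pairs B N hB (fun m => if (u.1 + u.2) + i' = m + i then f (u.1 + u.2) m else 0)

lemma Dp_diag (n p q : ℝ) : Dp n n p q = 0 := by
  unfold Dp
  ring

lemma Dp_bound (n m p q : ℝ) (hn : 0 ≤ n) (hm : 0 ≤ m) (hp : 0 ≤ p) (hq : 0 ≤ q)
    (hp' : p ≤ n ^ 2 / 4) (hq' : q ≤ m ^ 2 / 4) :
    |Dp n m p q| ≤ 750 * |n - m| * (n + m) ^ 5 := by
  have hfac : Dp n m p q = (n - m) * (-2880 * (n - m) * p * q +
      p * (9 * n ^ 3 - 57 * n ^ 2 * m - 381 * n * m ^ 2 - 315 * m ^ 3) +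
      q * (315 * n ^ 3 + 381 * n ^ 2 * m + 57 * n * m ^ 2 - 9 * m ^ 3) -
      (1 / 8) * (n - m) * (73 * n ^ 4 + 340 * n ^ 3 * m + 534 * n ^ 2 * m ^ 2 +
        340 * n * m ^ 3 + 73 * m ^ 4)) := by
    unfold Dp
    ring
  rw [hfac, abs_mul]
  have hs : 0 ≤ n + m := by positivity
  have key : |(-2880 * (n - m) * p * q +
      p * (9 * n ^ 3 - 57 * n ^ 2 * m - 381 * n * m ^ 2 - 315 * m ^ 3) +
      q * (315 * n ^ 3 + 381 * n ^ 2 * m + 57 * n * m ^ 2 - 9 * m ^ 3) -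
      (1 / 8) * (n - m) * (73 * n ^ 4 + 340 * n ^ 3 * m + 534 * n ^ 2 * m ^ 2 +
        340 * n * m ^ 3 + 73 * m ^ 4))| ≤ 750 * (n + m) ^ 5 := by
    have hd : |n - m| ≤ n + m := by
      rw [abs_le]
      constructor <;> linarith
    have hpp : p ≤ (n + m) ^ 2 / 4 := by nlinarith
    have hqq : q ≤ (n + m) ^ 2 / 4 := by nlinarith
    have t1 : |(-2880 * (n - m) * p * q)| ≤ 180 * (n + m) ^ 5 := by
      have : |(-2880 * (n - m) * p * q)| = 2880 * (|n - m| * (p * q)) := by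
        rw [show (-2880 * (n - m) * p * q) = -2880 * ((n - m) * (p * q)) by ring, abs_mul,
          abs_mul, abs_of_nonneg (mul_nonneg hp hq)]
        norm_num
      rw [this]
      have h1 : p * q ≤ (n + m) ^ 2 / 4 * ((n + m) ^ 2 / 4) :=
        mul_le_mul hpp hqq hq (by positivity)
      have h2 : |n - m| * (p * q) ≤ (n + m) * ((n + m) ^ 2 / 4 * ((n + m) ^ 2 / 4)) :=
        mul_le_mul hd h1 (mul_nonneg hp hq) hs
      calc 2880 * (|n - m| * (p * q)) ≤ 2880 * ((n + m) * ((n + m) ^ 2 / 4 * ((n + m) ^ 2 / 4))) :=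
            mul_le_mul_of_nonneg_left h2 (by norm_num)
        _ = 180 * (n + m) ^ 5 := by ring
    have c1 : 0 ≤ n ^ 2 * m := by positivity
    have c2 : 0 ≤ n * m ^ 2 := by positivity
    have c3 : 0 ≤ n ^ 3 := by positivity
    have c4 : 0 ≤ m ^ 3 := by positivity
    have a1 : |9 * n ^ 3 - 57 * n ^ 2 * m - 381 * n * m ^ 2 - 315 * m ^ 3| ≤ 400 * (n + m) ^ 3 := by
      rw [abs_le]
      constructor <;> nlinarith
    have a2 : |315 * n ^ 3 + 381 * n ^ 2 * m + 57 * n * m ^ 2 - 9 * m ^ 3| ≤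
        400 * (n + m) ^ 3 := by
      rw [abs_le]
      constructor <;> nlinarith
    have t2 : |p * (9 * n ^ 3 - 57 * n ^ 2 * m - 381 * n * m ^ 2 - 315 * m ^ 3)| ≤
        100 * (n + m) ^ 5 := by
      rw [abs_mul, abs_of_nonneg hp]
      calc p * _ ≤ (n + m) ^ 2 / 4 * (400 * (n + m) ^ 3) :=
            mul_le_mul hpp a1 (abs_nonneg _) (by positivity)
        _ = 100 * (n + m) ^ 5 := by ring
    have t3 : |q * (315 * n ^ 3 + 381 * n ^ 2 * m + 57 * n * m ^ 2 - 9 * m ^ 3)| ≤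
        100 * (n + m) ^ 5 := by
      rw [abs_mul, abs_of_nonneg hq]
      calc q * _ ≤ (n + m) ^ 2 / 4 * (400 * (n + m) ^ 3) :=
            mul_le_mul hqq a2 (abs_nonneg _) (by positivity)
        _ = 100 * (n + m) ^ 5 := by ring
    have d1 : 0 ≤ n ^ 4 := by positivity
    have d2 : 0 ≤ n ^ 3 * m := by positivity
    have d3 : 0 ≤ n ^ 2 * m ^ 2 := by positivity
    have d4 : 0 ≤ n * m ^ 3 := by positivity
    have d5 : 0 ≤ m ^ 4 := by positivity
    have a4 : 73 * n ^ 4 + 340 * n ^ 3 * m + 534 * n ^ 2 * m ^ 2 +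
        340 * n * m ^ 3 + 73 * m ^ 4 ≤ 100 * (n + m) ^ 4 := by nlinarith
    have a5 : 0 ≤ 73 * n ^ 4 + 340 * n ^ 3 * m + 534 * n ^ 2 * m ^ 2 +
        340 * n * m ^ 3 + 73 * m ^ 4 := by positivity
    have t4 : |(1 / 8) * (n - m) * (73 * n ^ 4 + 340 * n ^ 3 * m + 534 * n ^ 2 * m ^ 2 +
        340 * n * m ^ 3 + 73 * m ^ 4)| ≤ 100 / 8 * (n + m) ^ 5 := by
      rw [abs_mul, abs_mul, abs_of_nonneg a5]
      have : |(1 / 8 : ℝ)| = 1 / 8 := by norm_num
      rw [this]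
      calc 1 / 8 * |n - m| * _ ≤ 1 / 8 * (n + m) * (100 * (n + m) ^ 4) :=
            mul_le_mul (by linarith) a4 a5 (by positivity)
        _ = 100 / 8 * (n + m) ^ 5 := by ring
    have hs5 : 0 ≤ (n + m) ^ 5 := by positivity
    rw [abs_le] at t1 t2 t3 t4 ⊢
    constructor <;> linarith [t1.1, t1.2, t2.1, t2.2, t3.1, t3.2, t4.1, t4.2]
  calc |n - m| * _ ≤ |n - m| * (750 * (n + m) ^ 5) :=
        mul_le_mul_of_nonneg_left key (abs_nonneg _)
    _ = 750 * |n - m| * (n + m) ^ 5 := by ring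

lemma rep_zero (B : Finset ℕ) (N n : ℕ) (hB : B ⊆ Icc 1 N) (hn : 2 * N < n) : rep B n = 0 := by
  unfold rep
  rw [Finset.card_eq_zero, Finset.filter_eq_empty_iff]
  intro p hp
  rw [mem_product] at hp
  have h1 := mem_Icc.mp (hB hp.1)
  have h2 := mem_Icc.mp (hB hp.2)
  omega

lemma sum_inv_sq (M : ℕ) : ∑ n ∈ Icc 1 M, 1 / (n : ℝ) ^ 2 ≤ 2 := by
  have key : ∀ M : ℕ, ∑ n ∈ Icc 1 M, 1 / (n : ℝ) ^ 2 ≤ 2 - 1 / (M : ℝ) := by
    intro M
    induction M with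
    | zero => simp
    | succ M ih =>
      rw [Finset.sum_Icc_succ_top (by omega)]
      rcases Nat.eq_zero_or_pos M with h | h
      · subst h
        norm_num
      · have hM : (0 : ℝ) < M := by exact_mod_cast h
        have e : 1 / ((M + 1 : ℕ) : ℝ) ^ 2 ≤ 1 / (M : ℝ) - 1 / ((M + 1 : ℕ) : ℝ) := by
          push_cast
          rw [div_sub_div _ _ hM.ne' (by positivity), div_le_div_iff₀ (by positivity) (by positivity)]
          nlinarith
        linarith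
  have h1 := key M
  have h2 : (0 : ℝ) ≤ 1 / (M : ℝ) := by positivity
  linarith

/-- the main part from below -/
lemma main_low (B : Finset ℕ) (N i i' : ℕ) (hB : B ⊆ Icc 1 N) :
    315 / 16 * ∑ k ∈ Icc 1 (2 * N), (rep B (k + i) : ℝ) * rep B (k + i') /
      (2 * (k : ℝ) + i + i') ≤
    ∑ n ∈ Icc 1 (2 * N), (rep B n : ℝ) * ∑ m ∈ Icc 1 (2 * N), (rep B m : ℝ) *
        (if n + i' = m + i then 315 / 16 / ((n : ℝ) + m) else 0) := by
  set g : ℕ → ℝ := fun n => (rep B n : ℝ) * ∑ m ∈ Icc 1 (2 * N), (rep B m : ℝ) *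
        (if n + i' = m + i then 315 / 16 / ((n : ℝ) + m) else 0) with hg
  have hg0 : ∀ n, 0 ≤ g n := by
    intro n
    refine mul_nonneg (Nat.cast_nonneg _) (Finset.sum_nonneg (fun m _ => ?_))
    refine mul_nonneg (Nat.cast_nonneg _) ?_
    split_ifs
    · positivity
    · exact le_refl _
  have hterm : ∀ k ∈ Icc 1 (2 * N), 315 / 16 * ((rep B (k + i) : ℝ) * rep B (k + i') /
      (2 * (k : ℝ) + i + i')) ≤ if k + i ≤ 2 * N then g (k + i) else 0 := by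
    intro k hk
    rw [mem_Icc] at hk
    split_ifs with h1
    · by_cases h2 : k + i' ≤ 2 * N
      · have hs : (rep B (k + i') : ℝ) *
            (if k + i + i' = k + i' + i then 315 / 16 / (((k + i : ℕ) : ℝ) + (k + i' : ℕ)) else 0)
            ≤ ∑ m ∈ Icc 1 (2 * N), (rep B m : ℝ) *
              (if k + i + i' = m + i then 315 / 16 / (((k + i : ℕ) : ℝ) + m) else 0) := by
          refine Finset.single_le_sum (f := fun m => (rep B m : ℝ) *
              (if k + i + i' = m + i then 315 / 16 / (((k + i : ℕ) : ℝ) + m) else 0)) ?_ ?_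
          · intro m _
            refine mul_nonneg (Nat.cast_nonneg _) ?_
            split_ifs
            · positivity
            · exact le_refl _
          · rw [mem_Icc]
            omega
        rw [if_pos (by omega)] at hs
        have hs2 := mul_le_mul_of_nonneg_left hs (Nat.cast_nonneg (α := ℝ) (rep B (k + i)))
        refine le_trans (le_of_eq ?_) hs2
        push_cast
        rw [show (2 * (k : ℝ) + i + i') = (k : ℝ) + i + (k + i') by ring]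
        ring
      · rw [rep_zero B N (k + i') hB (by omega)]
        simp only [Nat.cast_zero, mul_zero, zero_div]
        exact hg0 _
    · rw [rep_zero B N (k + i) hB (by omega)]
      simp
  rw [Finset.mul_sum]
  calc ∑ k ∈ Icc 1 (2 * N), 315 / 16 * ((rep B (k + i) : ℝ) * rep B (k + i') /
      (2 * (k : ℝ) + i + i')) ≤ ∑ k ∈ Icc 1 (2 * N), if k + i ≤ 2 * N then g (k + i) else 0 :=
        Finset.sum_le_sum hterm
    _ = ∑ k ∈ (Icc 1 (2 * N)).filter (fun k => k + i ≤ 2 * N), g (k + i) := by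
        rw [Finset.sum_filter]
    _ = ∑ n ∈ ((Icc 1 (2 * N)).filter (fun k => k + i ≤ 2 * N)).image (fun k => k + i), g n := by
        rw [Finset.sum_image]
        intro x _ y _ h
        simpa using h
    _ ≤ ∑ n ∈ Icc 1 (2 * N), g n := by
        refine Finset.sum_le_sum_of_subset_of_nonneg ?_ (fun n _ _ => hg0 n)
        intro n hn
        rw [mem_image] at hn
        obtain ⟨k, hk, rfl⟩ := hn
        rw [mem_filter, mem_Icc] at hk
        rw [mem_Icc]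
        omega

/-- the error -/
lemma err_up (B : Finset ℕ) (N i i' K : ℕ) (E : ℝ) (hE : 0 ≤ E) (hK : ∀ n, rep B n ≤ K) :
    ∑ n ∈ Icc 1 (2 * N), (rep B n : ℝ) * ∑ m ∈ Icc 1 (2 * N), (rep B m : ℝ) *
        (if n + i' = m + i then E / ((n : ℝ) + m) ^ 2 else 0) ≤ 2 * K ^ 2 * E := by
  have hin : ∀ n ∈ Icc 1 (2 * N), ∑ m ∈ Icc 1 (2 * N), (rep B m : ℝ) *
        (if n + i' = m + i then E / ((n : ℝ) + m) ^ 2 else 0) ≤ K * (E * (1 / (n : ℝ) ^ 2)) := by
    intro n hn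
    rw [mem_Icc] at hn
    have hn0 : (0 : ℝ) < n := by exact_mod_cast (by omega : 0 < n)
    calc ∑ m ∈ Icc 1 (2 * N), (rep B m : ℝ) *
        (if n + i' = m + i then E / ((n : ℝ) + m) ^ 2 else 0) ≤
        ∑ m ∈ Icc 1 (2 * N), (if m = n + i' - i then K * (E * (1 / (n : ℝ) ^ 2)) else 0) := by
          refine Finset.sum_le_sum (fun m _ => ?_)
          split_ifs with h1 h2 h2
          · have e1 : (rep B m : ℝ) ≤ K := by exact_mod_cast hK m
            have e2 : E / ((n : ℝ) + m) ^ 2 ≤ E * (1 / (n : ℝ) ^ 2) := by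
              rw [mul_one_div]
              refine div_le_div_of_nonneg_left hE (by positivity) ?_
              have : (0 : ℝ) ≤ m := Nat.cast_nonneg _
              nlinarith
            exact mul_le_mul e1 e2 (by positivity) (Nat.cast_nonneg _)
          · omega
          · rw [mul_zero]
            positivity
          · rw [mul_zero]
      _ ≤ K * (E * (1 / (n : ℝ) ^ 2)) := by
          rw [Finset.sum_ite_eq']
          split_ifs
          · exact le_refl _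
          · positivity
  calc ∑ n ∈ Icc 1 (2 * N), (rep B n : ℝ) * ∑ m ∈ Icc 1 (2 * N), (rep B m : ℝ) *
        (if n + i' = m + i then E / ((n : ℝ) + m) ^ 2 else 0) ≤
      ∑ n ∈ Icc 1 (2 * N), (K : ℝ) * (K * (E * (1 / (n : ℝ) ^ 2))) := by
        refine Finset.sum_le_sum (fun n hn => ?_)
        refine mul_le_mul (by exact_mod_cast hK n) (hin n hn) ?_ (Nat.cast_nonneg _)
        refine Finset.sum_nonneg (fun m _ => ?_)
        refine mul_nonneg (Nat.cast_nonneg _) ?_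
        split_ifs
        · positivity
        · exact le_refl _
    _ = (K : ℝ) ^ 2 * E * ∑ n ∈ Icc 1 (2 * N), 1 / (n : ℝ) ^ 2 := by
        rw [Finset.mul_sum]
        refine Finset.sum_congr rfl (fun n _ => ?_)
        ring
    _ ≤ (K : ℝ) ^ 2 * E * 2 :=
        mul_le_mul_of_nonneg_left (sum_inv_sq _) (by positivity)
    _ = 2 * K ^ 2 * E := by ring

noncomputable def f1 (n m : ℕ) : ℝ := 315 / 16 / ((n : ℝ) + m)

noncomputable def f2 (E : ℝ) (n m : ℕ) : ℝ := E / ((n : ℝ) + m) ^ 2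

theorem main (hKER : KER_stmt) : RS_stmt := by
  constructor
  · intro B N hB
    rw [QS_eq hKER B N 0 0 hB]
    have e1 : ∑ q ∈ quads B 0 0, Wf ((q.1.1 : ℝ) + q.2.2) ((q.1.2 : ℝ) + q.2.1)
        ((q.1.1 : ℝ) * q.2.2) ((q.1.2 : ℝ) * q.2.1) =
        ∑ q ∈ quads B 0 0, f1 (q.1.1 + q.2.2) (q.1.2 + q.2.1) := by
      refine Finset.sum_congr rfl (fun q hq => ?_)
      rw [mem_quads] at hq
      have h5 : q.1.1 + q.2.2 = q.1.2 + q.2.1 := by
        have := hq.2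
        omega
      have h6 : (q.1.1 : ℝ) + q.2.2 = (q.1.2 : ℝ) + q.2.1 := by exact_mod_cast h5
      unfold Wf
      rw [h6, Dp_diag, zero_div, add_zero]
      unfold f1
      push_cast
      rw [h6]
    rw [e1, sum_quads B N 0 0 hB f1, Finset.mul_sum]
    refine Finset.sum_congr rfl (fun n hn => ?_)
    have hn' := hn
    rw [mem_Icc] at hn
    have hn0 : (0 : ℝ) < n := by exact_mod_cast (by omega : 0 < n)
    rw [Finset.sum_eq_single n]
    · rw [if_pos rfl]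
      unfold f1
      field_simp
      ring
    · intro m _ hm
      rw [if_neg (by omega), mul_zero]
    · intro h
      exact absurd hn' h
  · intro K J
    refine ⟨2 * (K : ℝ) ^ 2 * (750 * J), ?_⟩
    intro B N i i' hB hK hi hi'
    rw [QS_eq hKER B N i i' hB]
    have hlow : ∀ q ∈ quads B i i',
        f1 (q.1.1 + q.2.2) (q.1.2 + q.2.1) -
        f2 (750 * J) (q.1.1 + q.2.2) (q.1.2 + q.2.1) ≤
        Wf ((q.1.1 : ℝ) + q.2.2) ((q.1.2 : ℝ) + q.2.1)
        ((q.1.1 : ℝ) * q.2.2) ((q.1.2 : ℝ) * q.2.1) := by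
      intro q hq
      rw [mem_quads] at hq
      obtain ⟨⟨⟨q1, q2⟩, q3, q4⟩, q5⟩ := hq
      have p1 : (0 : ℝ) < q.1.1 := by
        have := (mem_Icc.mp (hB q1)).1
        exact_mod_cast this
      have p2 : (0 : ℝ) < q.1.2 := by
        have := (mem_Icc.mp (hB q2)).1
        exact_mod_cast this
      have p3 : (0 : ℝ) < q.2.1 := by
        have := (mem_Icc.mp (hB q3)).1
        exact_mod_cast this
      have p4 : (0 : ℝ) < q.2.2 := by
        have := (mem_Icc.mp (hB q4)).1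
        exact_mod_cast this
      have hnm : |((q.1.1 : ℝ) + q.2.2) - ((q.1.2 : ℝ) + q.2.1)| ≤ J := by
        have h5 : (q.1.1 : ℝ) + q.2.2 + i' = (q.1.2 : ℝ) + q.2.1 + i := by exact_mod_cast q5
        have h6 : (i : ℝ) ≤ J := by exact_mod_cast hi.le
        have h7 : (i' : ℝ) ≤ J := by exact_mod_cast hi'.le
        have h8 : (0 : ℝ) ≤ i := Nat.cast_nonneg _
        have h9 : (0 : ℝ) ≤ i' := Nat.cast_nonneg _
        rw [abs_le]
        constructor <;> linarith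
      have hD := Dp_bound ((q.1.1 : ℝ) + q.2.2) ((q.1.2 : ℝ) + q.2.1) ((q.1.1 : ℝ) * q.2.2)
        ((q.1.2 : ℝ) * q.2.1) (by positivity) (by positivity) (by positivity) (by positivity)
        (by nlinarith [sq_nonneg ((q.1.1 : ℝ) - q.2.2)])
        (by nlinarith [sq_nonneg ((q.1.2 : ℝ) - q.2.1)])
      unfold Wf f1 f2
      push_cast
      set s : ℝ := (q.1.1 : ℝ) + q.2.2 + ((q.1.2 : ℝ) + q.2.1) with hs
      have hs0 : 0 < s := by positivity
      have hD2 : -(750 * (J : ℝ) * s ^ 5) ≤ Dp ((q.1.1 : ℝ) + q.2.2) ((q.1.2 : ℝ) + q.2.1)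
          ((q.1.1 : ℝ) * q.2.2) ((q.1.2 : ℝ) * q.2.1) := by
        have h1 := (abs_le.mp hD).1
        have h2 : 750 * |((q.1.1 : ℝ) + q.2.2) - ((q.1.2 : ℝ) + q.2.1)| * s ^ 5 ≤
            750 * J * s ^ 5 := by
          refine mul_le_mul_of_nonneg_right ?_ (by positivity)
          linarith
        linarith
      have hD3 : -(750 * (J : ℝ) / s ^ 2) ≤ Dp ((q.1.1 : ℝ) + q.2.2) ((q.1.2 : ℝ) + q.2.1)
          ((q.1.1 : ℝ) * q.2.2) ((q.1.2 : ℝ) * q.2.1) / s ^ 7 := by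
        rw [le_div_iff₀ (by positivity)]
        refine le_trans (le_of_eq ?_) hD2
        field_simp
      linarith
    have h1 := Finset.sum_le_sum hlow
    rw [Finset.sum_sub_distrib, sum_quads B N i i' hB f1, sum_quads B N i i' hB (f2 (750 * J))] at h1
    have h2 := main_low B N i i' hB
    have h3 := err_up B N i i' K (750 * J) (by positivity) hK
    refine le_trans ?_ h1
    unfold f1 f2
    linarith

end Pool.Agent.W654.ET.RS
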